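import Pool.Agent.H72.HR.Defs2

open MvPolynomial Module

namespace Pool.Agent.H90.HR

open Pool.Agent.H72.HR
open Pool.Agent.H72.BF (RP Gf)

/-- counting unknowns and constraints -/
theorem count_le (r d c w A B Q g h X K : ℕ) (hwc : w ≤ c) (hcd : c ≤ d) (hA : A ≤ Q)
    (hB : B ≤ Q) (hpar : r * B + d * A + 1 ≤ (c - w) * Q)
    (hg : 2 * (K + 1) * (2 ^ d * X ^ r) ≤ g) (hg1 : 1 ≤ g) :
    2 * (K + 1) * ((g ^ Q + 1) ^ (d - c) * ((g ^ Q + 1) ^ w * (X * (h * g ^ Q)) ^ r)) ≤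
      (h * g ^ (Q - B)) ^ r * (g ^ (Q - A)) ^ d := by
  have h1 : g ^ Q + 1 ≤ 2 * g ^ Q := by
    have : 1 ≤ g ^ Q := Nat.one_le_pow _ _ hg1
    omega
  have h2 : (g ^ Q + 1) ^ (d - c) * (g ^ Q + 1) ^ w ≤ 2 ^ d * g ^ (Q * (d - c + w)) := by
    rw [← pow_add]
    calc (g ^ Q + 1) ^ (d - c + w) ≤ (2 * g ^ Q) ^ (d - c + w) := Nat.pow_le_pow_left h1 _
      _ = 2 ^ (d - c + w) * g ^ (Q * (d - c + w)) := by rw [mul_pow, ← pow_mul]
      _ ≤ 2 ^ d * g ^ (Q * (d - c + w)) :=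
        Nat.mul_le_mul_right _ (Nat.pow_le_pow_right (by norm_num) (by omega))
  have hexp : Q * (d - c + w) + Q * r + 1 ≤ (Q - B) * r + (Q - A) * d := by
    zify [hwc, hcd, hA, hB] at hpar ⊢
    nlinarith
  calc 2 * (K + 1) * ((g ^ Q + 1) ^ (d - c) * ((g ^ Q + 1) ^ w * (X * (h * g ^ Q)) ^ r))
      = 2 * (K + 1) * ((g ^ Q + 1) ^ (d - c) * (g ^ Q + 1) ^ w) * (X ^ r * (h ^ r * g ^ (Q * r))) := by
        rw [mul_pow, mul_pow, ← pow_mul]; ring
    _ ≤ 2 * (K + 1) * (2 ^ d * g ^ (Q * (d - c + w))) * (X ^ r * (h ^ r * g ^ (Q * r))) :=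
        Nat.mul_le_mul_right _ (Nat.mul_le_mul_left _ h2)
    _ = (2 * (K + 1) * (2 ^ d * X ^ r)) * (h ^ r * g ^ (Q * (d - c + w) + Q * r)) := by
        rw [pow_add]; ring
    _ ≤ g * (h ^ r * g ^ (Q * (d - c + w) + Q * r)) := Nat.mul_le_mul_right _ hg
    _ = h ^ r * g ^ (Q * (d - c + w) + Q * r + 1) := by rw [pow_succ]; ring
    _ ≤ h ^ r * g ^ ((Q - B) * r + (Q - A) * d) :=
        Nat.mul_le_mul_left _ (Nat.pow_le_pow_right hg1 hexp)
    _ = (h * g ^ (Q - B)) ^ r * (g ^ (Q - A)) ^ d := by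
        rw [mul_pow, ← pow_mul, ← pow_mul, pow_add]; ring

/-- the final inequality -/
theorem fin_ineq (k0 : ℕ) (c0 c1 c2 m x1 X N Z V : ℝ) (hN : 1 ≤ N) (hZ : 1 ≤ Z)
    (hZK : Z ^ (2 * (k0 + 1)) ≤ Real.exp ((m + x1 + c1) * N))
    (hx1 : x1 = 3 * m + c1 + 2 * c0 + 2 * c2 + 4) (hX : (m + x1 + c1) / 2 + c0 + c2 + 2 ≤ X)
    (hV : V ≤ Real.exp (c2 * N) * (Real.exp (m * N) * Z / Real.exp (x1 * N) +
      Z * Real.exp (-(X * N)) + Z * Real.exp (-(X * N)))) :
    ¬ (1 ≤ Z ^ k0 * Real.exp (c0 * N) * V) := by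
  intro h
  have hZ0 : 0 < Z := by linarith
  have h1 : Z ^ (k0 + 1) ≤ Real.exp ((m + x1 + c1) / 2 * N) := by
    have e1 : Z ^ (2 * (k0 + 1)) = (Z ^ (k0 + 1)) ^ 2 := by rw [← pow_mul, mul_comm]
    have e2 : Real.exp ((m + x1 + c1) * N) = (Real.exp ((m + x1 + c1) / 2 * N)) ^ 2 := by
      rw [← Real.exp_nat_mul]; congr 1; push_cast; ring
    rw [e1, e2] at hZK
    exact (pow_le_pow_iff_left₀ (by positivity) (Real.exp_pos _).le two_ne_zero).1 hZK
  have h2 : Z ^ k0 * Real.exp (c0 * N) * V ≤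
      Z ^ (k0 + 1) * (Real.exp ((c0 + c2) * N) * (Real.exp ((m - x1) * N) +
        2 * Real.exp (-(X * N)))) := by
    calc Z ^ k0 * Real.exp (c0 * N) * V ≤ Z ^ k0 * Real.exp (c0 * N) * _ :=
          mul_le_mul_of_nonneg_left hV (by positivity)
      _ = _ := by
        rw [add_mul c0 c2 N, Real.exp_add, sub_mul, Real.exp_sub, pow_succ]
        ring
  have h3 : Z ^ (k0 + 1) * (Real.exp ((c0 + c2) * N) * (Real.exp ((m - x1) * N) +
        2 * Real.exp (-(X * N)))) ≤ Real.exp ((m + x1 + c1) / 2 * N) *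
        (Real.exp ((c0 + c2) * N) * (Real.exp ((m - x1) * N) + 2 * Real.exp (-(X * N)))) :=
    mul_le_mul_of_nonneg_right h1 (by positivity)
  have h4 : Real.exp ((m + x1 + c1) / 2 * N) *
        (Real.exp ((c0 + c2) * N) * (Real.exp ((m - x1) * N) + 2 * Real.exp (-(X * N)))) =
      Real.exp (-2 * N) + 2 * Real.exp (((m + x1 + c1) / 2 + c0 + c2 - X) * N) := by
    have e1 : Real.exp (-2 * N) = Real.exp ((m + x1 + c1) / 2 * N) *
        (Real.exp ((c0 + c2) * N) * Real.exp ((m - x1) * N)) := by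
      rw [← Real.exp_add, ← Real.exp_add]; congr 1; rw [hx1]; ring
    have e2 : Real.exp (((m + x1 + c1) / 2 + c0 + c2 - X) * N) =
        Real.exp ((m + x1 + c1) / 2 * N) * (Real.exp ((c0 + c2) * N) * Real.exp (-(X * N))) := by
      rw [← Real.exp_add, ← Real.exp_add]; congr 1; ring
    rw [e1, e2]; ring
  have h5 : Real.exp (((m + x1 + c1) / 2 + c0 + c2 - X) * N) ≤ Real.exp (-2 * N) := by
    apply Real.exp_le_exp.2
    nlinarith
  have h6 : Real.exp (-2 * N) ≤ Real.exp (-2) := by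
    apply Real.exp_le_exp.2
    linarith
  have h7 : Real.exp (-2) < 1 / 3 := by
    rw [Real.exp_neg, inv_eq_one_div]
    apply one_div_lt_one_div_of_lt (by norm_num)
    have := Real.exp_one_gt_d9
    have e : Real.exp 2 = Real.exp 1 * Real.exp 1 := by rw [← Real.exp_add]; norm_num
    rw [e]
    nlinarith
  linarith

section
variable {ρ τ : Type} [Fintype ρ] [Fintype τ] [DecidableEq ρ] [DecidableEq τ]

theorem foldr_sum {U σ ι : Type} [Fintype U] [Fintype σ] [DecidableEq σ] (κ : σ → Bool)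
    (o : ι → σ → ℂ) (p : U → ℤ) (f : U → MvPolynomial σ ℂ) (L : List ι) :
    L.foldr (fun a f => dv κ (o a) f) (∑ u, (p u : ℂ) • f u) =
      ∑ u, (p u : ℂ) • L.foldr (fun a f => dv κ (o a) f) (f u) := by
  induction L with
  | nil => rfl
  | cons a L ih =>
    rw [List.foldr_cons, ih, map_sum]
    refine Finset.sum_congr rfl fun u _ => ?_
    rw [Derivation.map_smul]
    rfl

theorem length_count (L : List (ρ ⊕ τ)) :
    ∑ i, L.count (Sum.inl i) + ∑ a, L.count (Sum.inr a) = L.length := by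
  have h1 : ∀ a b : ρ, ((Sum.inl a : ρ ⊕ τ) == Sum.inl b) = (a == b) := fun _ _ => rfl
  have h2 : ∀ (a : ρ) (b : τ), ((Sum.inl a : ρ ⊕ τ) == Sum.inr b) = false := fun _ _ => rfl
  have h3 : ∀ (a : τ) (b : ρ), ((Sum.inr a : ρ ⊕ τ) == Sum.inl b) = false := fun _ _ => rfl
  have h4 : ∀ a b : τ, ((Sum.inr a : ρ ⊕ τ) == Sum.inr b) = (a == b) := fun _ _ => rfl
  induction L with
  | nil => simp
  | cons x L ih =>
    rw [List.length_cons, ← ih]
    simp only [List.count_cons, Finset.sum_add_distrib]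
    rcases x with j | a
    · simp only [h1, h2, beq_iff_eq]
      simp
      ring
    · simp only [h3, h4, beq_iff_eq]
      simp
      ring

theorem card_Ux (h L T1 : ℕ) :
    Fintype.card (Ux ρ τ h L T1) = (h * L) ^ Fintype.card ρ * T1 ^ Fintype.card τ := by
  simp [Ux]

theorem val_sum {n c h L T1 : ℕ} (hVAL : T_VAL) (lam : Fin n → ℂ) (q : Fin n → ρ → τ → ℤ)
    (ν : Fin c → τ) (k : ρ → Fin c → ℤ) (E : Fin c → τ → ℤ) (p : Ux ρ τ h L T1 → ℤ)
    (s : ρ → ℤ) (l : List (ρ ⊕ τ)) :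
    eval (pt kap (gam lam q s)) (l.foldr (fun a f => dv kap (om ν k E a) f)
      (∑ u, (p u : ℂ) • bas u)) =
      vl lam q ν k E p (fun i => l.count (Sum.inl i)) (fun a => l.count (Sum.inr a)) s := by
  rw [foldr_sum, map_sum, vl]
  refine Finset.sum_congr rfl fun u _ => ?_
  rw [smul_eval, hVAL ρ τ c h L T1 ν k E u l (gam lam q s)]
  have e1 : ∑ a, ((u.2 a : ℕ) : ℂ) * gam lam q s (Sum.inr a) =
      ∑ i, (s i : ℂ) * th lam q u i := by
    simp only [gam, Sum.elim_inr, th, Finset.mul_sum]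
    rw [Finset.sum_comm]
    refine Finset.sum_congr rfl fun i _ => Finset.sum_congr rfl fun a _ => by ring
  rw [e1]
  simp only [gam, Sum.elim_inl]
  ring

end

/-- number of vectors supported outside the range of `ν` -/
theorem card_off {τ : Type} [Fintype τ] [DecidableEq τ] {c : ℕ} (ν : Fin c → τ)
    (hν : Function.Injective ν) :
    Fintype.card {a : τ // a ∉ Finset.univ.image ν} = Fintype.card τ - c := by
  rw [Fintype.card_subtype_compl, Fintype.card_coe, Finset.card_image_of_injective _ hν]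
  simp

theorem an (hPIG : T_PIG) (hVAL : T_VAL) (hLIB : T_LIB) (hLVL : T_LVL) (hCFU : T_CFU)
    (hSML : T_SML) : T_AN := by
  intro n lam hlam ρ τ _ _ _ _ c w q C0 A B Q hwc hAQ hB1 hBQ hpar
  obtain ⟨k0, c0, hc0, hLVL⟩ := hLVL n lam hlam ρ τ c q C0
  obtain ⟨c1, hc1, hCFU⟩ := hCFU n lam ρ τ c w q C0
  obtain ⟨c2, hc2, hSML⟩ := hSML n lam ρ τ c w q C0
  obtain ⟨gL, hLVL⟩ := hLVL A B Q hAQ hB1 hBQ
  obtain ⟨gC, hCFU⟩ := hCFU A B Q hAQ hB1 hBQ
  obtain ⟨gS, hSML⟩ := hSML A B Q hAQ hB1 hBQ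
  set m : ℝ := (Fintype.card ρ : ℝ) + Fintype.card τ + 2 with hm
  have hm0 : 0 ≤ m := by positivity
  set K : ℕ := 2 * (k0 + 1) with hK
  set x1 : ℝ := 3 * m + c1 + 2 * c0 + 2 * c2 + 4 with hx1
  have hx10 : 0 ≤ x1 := by positivity
  obtain ⟨X, hX⟩ := exists_nat_ge ((m + x1 + c1) / 2 + c0 + c2 + 2)
  have hX0 : 0 < X := by
    have : (0 : ℝ) < X := lt_of_lt_of_le (by positivity) hX
    exact_mod_cast this
  refine ⟨max (max gL gC) (max gS (2 * (K + 1) * (2 ^ Fintype.card τ * X ^ Fintype.card ρ) + 1)),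
    fun g hg => ?_⟩
  have hgL : gL ≤ g := le_trans (le_trans (le_max_left _ _) (le_max_left _ _)) hg
  have hgC : gC ≤ g := le_trans (le_trans (le_max_right _ _) (le_max_left _ _)) hg
  have hgS : gS ≤ g := le_trans (le_trans (le_max_left _ _) (le_max_right _ _)) hg
  have hgK : 2 * (K + 1) * (2 ^ Fintype.card τ * X ^ Fintype.card ρ) + 1 ≤ g :=
    le_trans (le_trans (le_max_right _ _) (le_max_right _ _)) hg
  have hg1 : 1 ≤ g := by omega
  obtain ⟨hL, hLVL⟩ := hLVL g hgL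
  obtain ⟨hC, hCFU⟩ := hCFU g hgC
  obtain ⟨hS, hSML⟩ := hSML g hgS
  refine ⟨X * g ^ Q, max (max hL hC) (max hS 1), fun h hh => ?_⟩
  have hhL : hL ≤ h := le_trans (le_trans (le_max_left _ _) (le_max_left _ _)) hh
  have hhC : hC ≤ h := le_trans (le_trans (le_max_right _ _) (le_max_left _ _)) hh
  have hhS : hS ≤ h := le_trans (le_trans (le_max_left _ _) (le_max_right _ _)) hh
  have hh1 : 1 ≤ h := le_trans (le_trans (le_max_right _ _) (le_max_right _ _)) hh
  intro ν k E hδ hk hE I b hb hclose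
  replace hLVL := hLVL h hhL ν k E hk hE
  replace hCFU := hCFU h hhC ν k E hk hE I
  replace hSML := hSML h hhS ν k E hδ hk hE I b (Real.exp (-(X * (h * g ^ Q)))) hb
    (Real.exp_pos _).le
  set N : ℝ := (h : ℝ) * (g : ℝ) ^ Q with hN
  have hgQ : 1 ≤ g ^ Q := Nat.one_le_pow _ _ hg1
  have hN1 : 1 ≤ N := by
    have h1 : 1 ≤ h * g ^ Q := Nat.mul_le_mul hh1 hgQ |>.trans' (by norm_num)
    rw [hN]
    exact_mod_cast h1
  replace hSML := hSML (by
    rw [Real.exp_le_one_iff]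
    have : (0 : ℝ) ≤ X * N := by positivity
    linarith) (fun i l => by
      refine (hclose i l).trans (le_of_eq ?_)
      rw [hN]; congr 1; ring)
  have hν : Function.Injective ν := by
    intro l l' hll
    by_contra hne
    have h1 := hδ l l'
    rw [if_neg hne, ← hll, hδ l l, if_pos rfl] at h1
    exact one_ne_zero h1
  have hcd : c ≤ Fintype.card τ := by
    simpa using Fintype.card_le_of_injective ν hν
  -- the constraints
  let off := {a : τ // a ∉ Finset.univ.image ν}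
  let VV := (off → Fin (g ^ Q + 1)) × (Fin w → Fin (g ^ Q + 1)) × (ρ → Fin (X * (h * g ^ Q)))
  let ext : (off → Fin (g ^ Q + 1)) → τ → ℕ := fun y a =>
    if ha : a ∉ Finset.univ.image ν then (y ⟨a, ha⟩ : ℕ) else 0
  have hext : ∀ y a, ext y a ≤ g ^ Q := by
    intro y a
    simp only [ext]
    split_ifs
    · exact Nat.zero_le _
    · exact Nat.lt_succ_iff.1 (y _).2
  let U := Ux ρ τ h (g ^ (Q - B)) (g ^ (Q - A))
  have hcardV : Fintype.card VV = (g ^ Q + 1) ^ (Fintype.card τ - c) *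
      ((g ^ Q + 1) ^ w * (X * (h * g ^ Q)) ^ Fintype.card ρ) := by
    simp only [VV, Fintype.card_prod, Fintype.card_fun, Fintype.card_fin, off]
    rw [card_off ν hν]
  have hcardU : Fintype.card U = (h * g ^ (Q - B)) ^ Fintype.card ρ *
      (g ^ (Q - A)) ^ Fintype.card τ := card_Ux _ _ _
  have hcount : 2 * (K + 1) * Fintype.card VV ≤ Fintype.card U := by
    rw [hcardV, hcardU]
    exact count_le _ _ c w A B Q g h X K hwc hcd hAQ hBQ hpar (by omega) hg1
  have hVpos : 0 < Fintype.card VV := by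
    rw [hcardV]
    have : 0 < X * (h * g ^ Q) := Nat.mul_pos hX0 (Nat.mul_pos hh1 hgQ)
    positivity
  obtain ⟨p, Z, hp0, hZ1, hpZ, hZK, hsmall⟩ := hPIG U VV
    (fun v u => cfu (4 * (h * g ^ A)) lam q ν k E I (ext v.1) (fun j => (v.2.1 j : ℕ))
      (fun i => (v.2.2 i : ℕ)) u) (Real.exp (c1 * N)) (Real.exp (x1 * N)) K
    (Real.one_le_exp (by positivity)) (Real.one_le_exp (by positivity)) (by omega) hVpos
    (fun v u => hCFU _ _ _ u (hext v.1) (fun j => Nat.lt_succ_iff.1 (v.2.1 j).2)) hcount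
  -- size of `U`
  have hUN : 4 * (Fintype.card U : ℝ) ≤ Real.exp (m * N) := by
    have h1 : (Fintype.card U : ℝ) ≤ N ^ (Fintype.card ρ + Fintype.card τ) := by
      rw [hcardU, pow_add]
      push_cast
      have hgr : (1 : ℝ) ≤ g := by exact_mod_cast hg1
      have hhr : (1 : ℝ) ≤ h := by exact_mod_cast hh1
      apply mul_le_mul
      · apply pow_le_pow_left₀ (by positivity)
        apply mul_le_mul_of_nonneg_left _ (by positivity)
        exact pow_le_pow_right₀ hgr (Nat.sub_le _ _)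
      · apply pow_le_pow_left₀ (by positivity)
        calc (g : ℝ) ^ (Q - A) ≤ (g : ℝ) ^ Q := pow_le_pow_right₀ hgr (Nat.sub_le _ _)
          _ ≤ h * (g : ℝ) ^ Q := le_mul_of_one_le_left (by positivity) hhr
      · positivity
      · positivity
    have h2 : N ^ (Fintype.card ρ + Fintype.card τ) ≤
        Real.exp (((Fintype.card ρ : ℝ) + Fintype.card τ) * N) := by
      have : ((Fintype.card ρ : ℝ) + Fintype.card τ) * N =
          ((Fintype.card ρ + Fintype.card τ : ℕ) : ℝ) * N := by push_cast; ring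
      rw [this, Real.exp_nat_mul]
      apply pow_le_pow_left₀ (by positivity)
      have := Real.add_one_le_exp N
      linarith
    have h3 : (4 : ℝ) ≤ Real.exp (2 * N) := by
      have h4 := Real.add_one_le_exp N
      have h5 : Real.exp (2 * N) = Real.exp N * Real.exp N := by
        rw [← Real.exp_add]; congr 1; ring
      rw [h5]
      nlinarith
    have h6 : Real.exp (m * N) = Real.exp (2 * N) *
        Real.exp (((Fintype.card ρ : ℝ) + Fintype.card τ) * N) := by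
      rw [← Real.exp_add]; congr 1; rw [hm]; ring
    rw [h6]
    exact mul_le_mul h3 (h1.trans h2) (by positivity) (by positivity)
  have hZ0 : 0 < Z := by linarith
  have hZK' : Z ^ (2 * (k0 + 1)) ≤ Real.exp ((m + x1 + c1) * N) := by
    refine hZK.trans ?_
    have e : Real.exp ((m + x1 + c1) * N) =
        Real.exp (m * N) * (Real.exp (x1 * N) * Real.exp (c1 * N)) := by
      rw [← Real.exp_add, ← Real.exp_add]; congr 1; ring
    rw [e]
    exact mul_le_mul_of_nonneg_right hUN (by positivity)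
  -- the values vanish
  have hvl : ∀ (x : ρ → ℕ) (y : τ → ℕ) (s : ρ → ℤ), ∑ i, x i + ∑ a, y a ≤ g ^ Q →
      (∀ i, 0 ≤ s i ∧ s i ≤ h * g ^ A) → vl lam q ν k E p x y s = 0 := by
    intro x y s hxy hs
    by_contra hne
    have h1 := hLVL p Z hZ1 hpZ x y s hxy hs hne
    have h2 := hSML p Z (Real.exp (m * N) * Z / Real.exp (x1 * N)) X hZ1 (by positivity) hpZ
      (by
        intro y z x hy0 hyQ hzQ hxX
        let v : VV := (fun a => ⟨y a.1, Nat.lt_succ_iff.2 (hyQ _)⟩,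
          fun j => ⟨z j, Nat.lt_succ_iff.2 (hzQ j)⟩, fun i => ⟨x i, hxX i⟩)
        have hv : ext v.1 = y := by
          funext a
          simp only [ext, v]
          split_ifs with ha
          · obtain ⟨l, _, hl⟩ := Finset.mem_image.1 ha
            rw [← hl, hy0 l]
          · rfl
        have h3 := hsmall v
        rw [hv] at h3
        rw [le_div_iff₀ (Real.exp_pos _), mul_comm]
        refine le_trans (le_of_eq ?_) (h3.trans (mul_le_mul_of_nonneg_right hUN hZ0.le))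
        congr 2
        refine Finset.sum_congr rfl fun u _ => ?_
        rw [mul_comm]) x y s hxy hs
    exact fin_ineq k0 c0 c1 c2 m x1 X N Z _ hN1 hZ1 hZK' hx1 hX h2 h1
  obtain ⟨hbox, hind⟩ := hLIB ρ τ h (g ^ (Q - B)) (g ^ (Q - A)) hh1 (Nat.one_le_pow _ _ hg1)
    (Nat.one_le_pow _ _ hg1)
  refine ⟨∑ u, (p u : ℂ) • bas u, fun h0 => hp0 (hind p h0), ?_, ?_⟩
  · exact Submodule.sum_mem _ fun u _ => Submodule.smul_mem _ _ (hbox u)
  · intro s hs L hL
    rw [val_sum hVAL]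
    apply hvl _ _ s _ hs
    rw [length_count]
    exact hL

end Pool.Agent.H90.HR
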