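import Pool.Agent.H72.HR.Targets

open MvPolynomial Module

namespace Pool.Agent.H90.HR

open Pool.Agent.H72.HR

theorem ED_le {F ι : Type} [Field F] [CharZero F] [Fintype ι] [DecidableEq F] (be : ι → F)
    (D : ℕ) : ∃ S : Finset F, ED be D ≤ Submodule.span ℚ (S : Set F) ∧
      S.card ≤ (D + 1) ^ Fintype.card ι := by
  classical
  refine ⟨(Fintype.piFinset (fun _ : ι => Finset.range (D + 1))).image
    (fun m => ∏ i, be i ^ m i), ?_, ?_⟩
  · unfold ED
    apply Submodule.span_mono
    rintro x ⟨m, hm, rfl⟩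
    rw [Finset.coe_image]
    refine ⟨m, ?_, rfl⟩
    rw [Finset.mem_coe, Fintype.mem_piFinset]
    intro i
    rw [Finset.mem_range]
    have : m i ≤ ∑ j, m j := Finset.single_le_sum (fun j _ => Nat.zero_le _) (Finset.mem_univ i)
    omega
  · refine Finset.card_image_le.trans ?_
    simp

theorem ED_card {F ι : Type} [Field F] [CharZero F] [Fintype ι] (be : ι → F) (D : ℕ) :
    1 ≤ finrank ℚ (ED be D) ∧ finrank ℚ (ED be D) ≤ (D + 1) ^ Fintype.card ι := by
  classical
  obtain ⟨S, h1, h2⟩ := ED_le be D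
  have : FiniteDimensional ℚ (Submodule.span ℚ (S : Set F)) :=
    FiniteDimensional.span_finset ℚ S
  have hfin : finrank ℚ (ED be D) ≤ finrank ℚ (Submodule.span ℚ (S : Set F)) :=
    Submodule.finrank_mono h1
  have : FiniteDimensional ℚ (ED be D) := Submodule.finiteDimensional_of_le h1
  constructor
  · have h1m : (1 : F) ∈ ED be D := by
      unfold ED
      apply Submodule.subset_span
      exact ⟨fun _ => 0, by simp, by simp⟩
    have : Nontrivial (ED be D) := ⟨⟨1, h1m⟩, 0, by
      intro h
      exact one_ne_zero (congrArg Subtype.val h)⟩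
    exact finrank_pos
  · exact hfin.trans ((finrank_span_finset_le_card S).trans h2)

theorem fol : T_FOL := by
  intro F ι _ _ _ be a b hab
  by_contra hcon
  push Not at hcon
  have hf1 : ∀ D, 1 ≤ finrank ℚ (ED be D) := fun D => (ED_card be D).1
  have hf2 : ∀ D, finrank ℚ (ED be D) ≤ (D + 1) ^ Fintype.card ι := fun D => (ED_card be D).2
  have key : ∀ D, b ^ D ≤ a ^ D * finrank ℚ (ED be D) := by
    intro D
    induction D with
    | zero => simpa using hf1 0
    | succ D ih =>
      calc b ^ (D + 1) = b ^ D * b := pow_succ _ _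
        _ ≤ (a ^ D * finrank ℚ (ED be D)) * b := Nat.mul_le_mul_right _ ih
        _ = a ^ D * (b * finrank ℚ (ED be D)) := by ring
        _ ≤ a ^ D * (a * finrank ℚ (ED be (D + 1))) := Nat.mul_le_mul_left _ (hcon D)
        _ = a ^ (D + 1) * finrank ℚ (ED be (D + 1)) := by ring
  have ha : 1 ≤ a := by
    rcases Nat.eq_zero_or_pos a with h | h
    · subst h
      have h1 := key 1
      simp at h1
      omega
    · exact h
  have har : (0 : ℝ) < a := by exact_mod_cast ha
  set r : ℝ := (b : ℝ) / a with hr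
  have hr1 : 1 < r := by
    rw [hr, one_lt_div har]
    exact_mod_cast hab
  have hr0 : 0 < r := lt_trans one_pos hr1
  have ht := tendsto_pow_const_div_const_pow_of_one_lt (Fintype.card ι) hr1
  have hev := ht.eventually (gt_mem_nhds (show (0 : ℝ) < 1 / r from by positivity))
  obtain ⟨N, hN⟩ := Filter.eventually_atTop.1 hev
  have h1 := hN (N + 1) (Nat.le_succ N)
  have h2 : r ^ N ≤ ((N + 1 : ℕ) : ℝ) ^ Fintype.card ι := by
    have h3 : (b : ℝ) ^ N ≤ (a : ℝ) ^ N * ((N + 1 : ℕ) : ℝ) ^ Fintype.card ι := by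
      have := (key N).trans (Nat.mul_le_mul_left _ (hf2 N))
      exact_mod_cast this
    rw [hr, div_pow, div_le_iff₀ (by positivity)]
    calc (b : ℝ) ^ N ≤ _ := h3
      _ = _ := by ring
  rw [div_lt_div_iff₀ (by positivity) hr0, pow_succ] at h1
  nlinarith
end Pool.Agent.H90.HR
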